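import Mathlib
import Pool.Agent.X162.BetaBlocks

/-!
# A number with exponentially many prefixes but only countably many expansions

Let `β` be the root in `(1, 2)` of `β ^ 5 = β ^ 4 + β ^ 3 + β ^ 2 + 1` and let `x` have the
expansion `u u v u v u u u v …`, where `u = 11010100`, `v = 1010110000100` and the `b`-th block
(counted from `0`) is `v` exactly if `b` is a power of two, `b ≥ 2`.  The set of all expansions of
`x` is countable, but the number of prefixes of length `k` grows exponentially in `k`.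
-/

namespace Pool.Agent.Results.MP_523de7_an.CountableButExponential

open Filter Topology

/-- Digit sequences; `y n` is the digit with index `n + 1`. -/
def Seq : Type := ℕ → Fin 2

/-- The metric `d(y, z) = 2 ^ (-n(y, z))`, `n(y, z) = min {i ≥ 1 : y_i ≠ z_i}`, for `y ≠ z`
(`PiNat.firstDiff y z` is the least index `n`, counted from `0`, with `y n ≠ z n`). -/
noncomputable instance : MetricSpace Seq := by
  classical
  exact
  { dist := fun y z => if y = z then 0 else (1 / 2 : ℝ) ^ (PiNat.firstDiff (E := fun _ => Fin 2) y z + 1)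
    dist_self := fun y => by simp
    dist_comm := fun y z => by
      simp only [PiNat.firstDiff_comm (E := fun _ => Fin 2) y z, eq_comm (a := y) (b := z)]
    dist_triangle := fun x y z => by
      have hpos : ∀ a b : Seq, 0 ≤ (if a = b then (0 : ℝ) else
          (1 / 2 : ℝ) ^ (PiNat.firstDiff (E := fun _ => Fin 2) a b + 1)) := by
        intro a b; split_ifs <;> positivity
      by_cases hxz : x = z
      · have h1 := hpos x y
        have h2 := hpos y z
        simp only [hxz, if_true] at h1 ⊢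
        linarith
      by_cases hxy : x = y
      · subst hxy
        simp
      by_cases hyz : y = z
      · subst hyz
        simp
      simp only [hxz, hxy, hyz, if_false]
      have hmin := PiNat.min_firstDiff_le (E := fun _ => Fin 2) x y z hxz
      rcases min_le_iff.mp hmin with h | h
      · have h3 : (1 / 2 : ℝ) ^ (PiNat.firstDiff (E := fun _ => Fin 2) x z + 1) ≤
            (1 / 2 : ℝ) ^ (PiNat.firstDiff (E := fun _ => Fin 2) x y + 1) :=
          pow_le_pow_of_le_one (by norm_num) (by norm_num) (by omega)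
        have h4 : (0 : ℝ) ≤ (1 / 2 : ℝ) ^ (PiNat.firstDiff (E := fun _ => Fin 2) y z + 1) := by
          positivity
        linarith
      · have h3 : (1 / 2 : ℝ) ^ (PiNat.firstDiff (E := fun _ => Fin 2) x z + 1) ≤
            (1 / 2 : ℝ) ^ (PiNat.firstDiff (E := fun _ => Fin 2) y z + 1) :=
          pow_le_pow_of_le_one (by norm_num) (by norm_num) (by omega)
        have h4 : (0 : ℝ) ≤ (1 / 2 : ℝ) ^ (PiNat.firstDiff (E := fun _ => Fin 2) x y + 1) := by
          positivity
        linarith
    eq_of_dist_eq_zero := fun {x y} h => by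
      by_contra hne
      simp only [hne, if_false] at h
      have : (0 : ℝ) < (1 / 2 : ℝ) ^ (PiNat.firstDiff (E := fun _ => Fin 2) x y + 1) := by
        positivity
      linarith }

/-- The set `Σ_β(x)` of `β`-expansions of `x`. -/
def expansions (β x : ℝ) : Set Seq := {ε | ∑' n : ℕ, ((ε n : ℕ) : ℝ) / β ^ (n + 1) = x}

/-- The number `N_k(x, β)` of `k`-prefixes for `x`. -/
noncomputable def prefixCount (β x : ℝ) (k : ℕ) : ℕ :=
  Set.ncard {w : Fin k → Fin 2 | ∃ ε ∈ expansions β x, ∀ i : Fin k, w i = ε i}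

/-- The lower growth rate of `N_k(x, β)`. -/
noncomputable def lowerGrowth (β x : ℝ) : ℝ :=
  liminf (fun k : ℕ => Real.logb 2 (prefixCount β x k) / k) atTop

open Pool.Agent.X162.BetaBlocks

lemma count_lower {β : ℝ} (hg : Good β) (j k : ℕ)
    (hk : tau (2 ^ (j + 1)) + 13 + 8 * (2 ^ (j + 1) - 1) ≤ k) :
    2 ^ (2 ^ (j + 1) - 1) ≤ prefixCount β (Xs β 0 0) k := by
  classical
  set b : ℕ := 2 ^ (j + 1) with hb
  let ext : (Fin (b - 1) → Fin 2) → ℕ → Fin 2 := fun χ i => if h : i < b - 1 then χ ⟨i, h⟩ else 0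
  have hex : ∀ χ : Fin (b - 1) → Fin 2, ∃ ε : ℕ → Fin 2, V β ε = Xs β 0 0 ∧
      ∀ i, i < b - 1 → ε (tau b + 13 + 8 * i + 1) = ext χ i := fun χ => famS hg j (ext χ)
  choose ε hε1 hε2 using hex
  let F : (Fin (b - 1) → Fin 2) → (Fin k → Fin 2) := fun χ i => ε χ i
  have hF : Function.Injective F := by
    intro χ χ' h
    funext i
    have hi := i.2
    have h1 : F χ ⟨tau b + 13 + 8 * (i : ℕ) + 1, by omega⟩ =
        F χ' ⟨tau b + 13 + 8 * (i : ℕ) + 1, by omega⟩ := by rw [h]
    have h2 := hε2 χ i hi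
    have h3 := hε2 χ' i hi
    simp only [F] at h1
    rw [h2, h3] at h1
    simpa [ext, hi] using h1
  have hsub : Set.range F ⊆ {w : Fin k → Fin 2 | ∃ ε ∈ expansions β (Xs β 0 0),
      ∀ i : Fin k, w i = ε i} := by
    rintro w ⟨χ, rfl⟩
    exact ⟨ε χ, hε1 χ, fun i => rfl⟩
  have h1 := Set.ncard_le_ncard hsub (Set.toFinite _)
  rw [← Set.image_univ, Set.ncard_image_of_injective _ hF, Set.ncard_univ,
    Nat.card_eq_fintype_card, Fintype.card_fun, Fintype.card_fin, Fintype.card_fin] at h1
  exact h1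

lemma count_upper (β x : ℝ) (k : ℕ) : prefixCount β x k ≤ 2 ^ k := by
  have h1 := Set.ncard_le_ncard (Set.subset_univ {w : Fin k → Fin 2 | ∃ ε ∈ expansions β x,
      ∀ i : Fin k, w i = ε i}) (Set.toFinite _)
  rw [Set.ncard_univ, Nat.card_eq_fintype_card, Fintype.card_fun, Fintype.card_fin,
    Fintype.card_fin] at h1
  exact h1

lemma growth {β : ℝ} (hg : Good β) (k : ℕ) (hk : 52 ≤ k) :
    1 / 104 ≤ Real.logb 2 (prefixCount β (Xs β 0 0) k) / k := by
  set q : ℕ := k / 26 with hq
  have hq2 : 2 ≤ q := by omega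
  set J : ℕ := Nat.log 2 q with hJ
  have hJ1 : 1 ≤ J := by
    rw [hJ]; exact (Nat.le_log_iff_pow_le (by norm_num) (by omega)).mpr (by omega)
  have h1 : 2 ^ J ≤ q := Nat.pow_log_le_self 2 (by omega)
  have h2 : q < 2 ^ (J + 1) := Nat.lt_pow_succ_log_self (by norm_num) q
  obtain ⟨j, hj⟩ : ∃ j, J = j + 1 := ⟨J - 1, by omega⟩
  rw [hj] at h1 h2
  set b : ℕ := 2 ^ (j + 1) with hb
  have hb2 : 2 ≤ b := by
    rw [hb, pow_succ]; have : 1 ≤ 2 ^ j := Nat.one_le_two_pow; omega
  have h3 : q + 1 ≤ 2 * b := by rw [pow_succ] at h2; omega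
  have h4 : 26 * b ≤ k := by omega
  have h5 : k ≤ 52 * b := by omega
  have h6 := tau_le b
  have h7 := count_lower hg j k (by rw [← hb]; omega)
  rw [← hb] at h7
  have h8 : ((2 : ℝ) ^ (b - 1)) ≤ prefixCount β (Xs β 0 0) k := by exact_mod_cast h7
  have h9 : ((b - 1 : ℕ) : ℝ) ≤ Real.logb 2 (prefixCount β (Xs β 0 0) k) := by
    rw [Real.le_logb_iff_rpow_le (by norm_num) (lt_of_lt_of_le (by positivity) h8),
      Real.rpow_natCast]
    exact h8
  have hk0 : (0 : ℝ) < k := by exact_mod_cast (by omega : 0 < k)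
  rw [div_le_div_iff₀ (by norm_num) hk0]
  have h10 : (k : ℝ) ≤ 52 * b := by exact_mod_cast h5
  have h11 : (b : ℝ) ≤ 2 * ((b - 1 : ℕ) : ℝ) := by exact_mod_cast (by omega : b ≤ 2 * (b - 1))
  nlinarith

lemma growth_le (β x : ℝ) (k : ℕ) : Real.logb 2 (prefixCount β x k) / k ≤ 1 := by
  rcases Nat.eq_zero_or_pos k with rfl | hk
  · simp
  · have hk0 : (0 : ℝ) < k := by exact_mod_cast hk
    rw [div_le_one hk0]
    rcases Nat.eq_zero_or_pos (prefixCount β x k) with h0 | h0
    · rw [h0]; simp
    · rw [Real.logb_le_iff_le_rpow (by norm_num) (by exact_mod_cast h0), Real.rpow_natCast]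
      exact_mod_cast count_upper β x k

/-- **Main result** (the negated form of Q1).  There are `β ∈ (1, 2)` and `x ∈ I_β` such that the
lower growth rate of the number of `k`-prefixes for `x` is positive (at least `1 / 104`), although
the set `Σ_β(x)` is countable and hence has Hausdorff dimension `0`.  One can take for `β` the
Pisot number with `β ^ 5 = β ^ 4 + β ^ 3 + β ^ 2 + 1`. -/
theorem result : ∃ β x : ℝ, 1 < β ∧ β < 2 ∧ β ^ 5 = β ^ 4 + β ^ 3 + β ^ 2 + 1 ∧
    x ∈ Set.Icc 0 (1 / (β - 1)) ∧ 1 / 104 ≤ lowerGrowth β x ∧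
    (expansions β x).Countable ∧ dimH (expansions β x) = 0 := by
  obtain ⟨β, hg⟩ := exists_good
  have h1 := hg.lo
  have h2 := hg.hi
  norm_num at h1 h2
  have hcount : (expansions β (Xs β 0 0)).Countable := S_countable hg
  refine ⟨β, Xs β 0 0, by linarith, by linarith, hg.eq, ⟨V_nonneg hg _, V_le' hg _⟩, ?_, hcount,
    hcount.dimH_zero⟩
  unfold lowerGrowth
  refine le_liminf_of_le ?_ ?_
  · refine IsBoundedUnder.isCoboundedUnder_ge ?_
    exact isBoundedUnder_of ⟨1, fun k => growth_le β _ k⟩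
  · filter_upwards [eventually_ge_atTop 52] with k hk
    exact growth hg k hk

end Pool.Agent.Results.MP_523de7_an.CountableButExponential
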